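import Pool.Agent.Helper85.PCP.Stmts

/-!
# Module TOK: the item machine on one token
-/

namespace PCP4

theorem tok_pop (m : ℕ) (tr : ℕ → List Bool) (n : ℕ) : ∀ (φ : ℕ) (Q : List Bool), n ≤ φ →
    (istep m tr)^[n] (φ, List.replicate n false ++ Q) = (φ - n, Q) := by
  induction n with
  | zero => intro φ Q _; rfl
  | succ n ih =>
    intro φ Q h
    rw [Function.iterate_succ_apply, List.replicate_succ, List.cons_append, istep,
      if_neg (by omega), ih _ _ (by omega)]
    congr 1
    omega

theorem tok_skip (m : ℕ) (tr : ℕ → List Bool) (x y φ : ℕ) (Q : List Bool) (h : x + y ≤ φ) :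
    (istep m tr)^[x + (1 + y)] (φ, (List.replicate x false ++ true :: List.replicate y false) ++ Q) =
      (φ - x - y, Q ++ tr (φ - x)) := by
  rw [show x + (1 + y) = (y + 1) + x by omega, Function.iterate_add_apply, List.append_assoc,
    tok_pop m tr x φ _ (by omega), Function.iterate_succ_apply, List.cons_append, istep,
    List.append_assoc, tok_pop m tr y _ _ (by omega)]

theorem tok_act (m : ℕ) (tr : ℕ → List Bool) (z y φ : ℕ) (Q : List Bool) (h : z + y + 1 ≤ m) :
    (istep m tr)^[(φ + (1 + z)) + (1 + y)]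
      (φ, (List.replicate (φ + (1 + z)) false ++ true :: List.replicate y false) ++ Q) =
      (m - 1 - z - y, Q ++ false :: tr (m - 1 - z)) := by
  rw [show (φ + (1 + z)) + (1 + y) = (((y + 1) + z) + 1) + φ by omega,
    Function.iterate_add_apply (istep m tr) (((y + 1) + z) + 1) φ, List.append_assoc,
    List.replicate_add, List.append_assoc, tok_pop m tr φ φ _ le_rfl, Nat.sub_self,
    Function.iterate_succ_apply, List.replicate_add, List.append_assoc,
    show List.replicate 1 false = [false] from rfl, List.singleton_append, istep, if_pos rfl,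
    Function.iterate_add_apply (istep m tr) (y + 1) z]
  rw [List.append_assoc, tok_pop m tr z (m - 1) _ (by omega), Function.iterate_succ_apply,
    List.cons_append, List.cons_append, istep, List.append_assoc, List.append_assoc,
    tok_pop m tr y _ _ (by omega)]
  rfl

theorem tok_true (V s A : ℕ) (P : ℕ → Option (List ℕ)) (D' : List ℕ) (a b φ : ℕ)
    (h1 : φ % 2 = 0) (h2 : φ ≠ 0) (h3 : 2 * A < V * nu A - φ) :
    trk V s A P D' a b φ = List.replicate (1 + (V * nu A - 1) * s) true := by
  rw [trk, if_neg (by omega), if_neg h2, if_neg (by omega)]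

theorem st_TOK (hW : ST_WACT) : ST_TOK := by
  intro V s A P D' a b hok
  have hA := hok.hA
  have hV := hok.hV
  have hnu : nu A = 4 * A + 2 := rfl
  refine ⟨?_, ?_, ?_, ?_⟩
  · intro κ hκ Q
    rw [istep]
    have h1 : κ * nu A + nu A ≤ V * nu A := by
      have : (κ + 1) * nu A ≤ V * nu A := Nat.mul_le_mul_right _ hκ
      rwa [Nat.add_mul, one_mul] at this
    have h2 : (2 * A + κ * nu A) % 2 = 0 := by
      rw [hnu, show 2 * A + κ * (4 * A + 2) = 2 * (A + κ * (2 * A + 1)) by ring]
      omega
    rw [tok_true V s A P D' a b _ h2 (by omega) (by omega)]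
  · intro κ hκ τ hτ Q
    have h1 : κ * nu A + nu A + nu A ≤ V * nu A := by
      have : (κ + 1 + 1) * nu A ≤ V * nu A := Nat.mul_le_mul_right _ hκ
      rwa [Nat.add_mul, Nat.add_mul, one_mul] at this
    have hx : xx A τ = 2 * A + 2 * (τ + 1) := rfl
    have h2 : (κ + 1) * nu A = κ * nu A + nu A := by ring
    have h3 : (κ * nu A) % 2 = 0 := by
      rw [hnu, show κ * (4 * A + 2) = 2 * (κ * (2 * A + 1)) by ring]
      omega
    have e := tok_skip (V * nu A) (trk V s A P D' a b) (xx A τ) (nu A - xx A τ)
      (2 * A + (κ + 1) * nu A) Q (by omega)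
    rw [show xx A τ + (1 + (nu A - xx A τ)) = nu A + 1 by omega] at e
    rw [lt1, e, tok_true V s A P D' a b _ (by omega) (by omega) (by omega)]
    congr 1
    omega
  · intro τ hτ p hp Q
    have h1 : nu A + nu A + nu A ≤ V * nu A := by
      have : 3 * nu A ≤ V * nu A := Nat.mul_le_mul_right _ hV
      omega
    have h2 : (V - 1) * nu A = V * nu A - nu A := by rw [Nat.sub_mul, one_mul]
    have h3 : (V * nu A) % 2 = 0 := by
      rw [hnu, show V * (4 * A + 2) = 2 * (V * (2 * A + 1)) by ring]
      omega
    have hx : xx A τ = 2 * A + 2 * (τ + 1) := rfl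
    have e := tok_act (V * nu A) (trk V s A P D' a b) (2 * τ + 1) (nu A - xx A τ) (2 * A) Q
      (by omega)
    rw [show 2 * A + (1 + (2 * τ + 1)) = xx A τ by omega,
      show xx A τ + (1 + (nu A - xx A τ)) = nu A + 1 by omega] at e
    have ht : trk V s A P D' a b (V * nu A - 1 - (2 * τ + 1)) = (letters A (Wact V s A p)).tail := by
      rw [trk, if_neg (by omega), if_neg (by omega), if_pos (by omega),
        show (V * nu A - (V * nu A - 1 - (2 * τ + 1))) / 2 - 1 = τ by omega, hp]
    rw [lt1, e, ht, ← (hW V s A P D' a b hok τ hτ p hp).2.2.2.1]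
    congr 1
    omega
  · intro τ hτ hp Q
    have h1 : nu A + nu A + nu A ≤ V * nu A := by
      have : 3 * nu A ≤ V * nu A := Nat.mul_le_mul_right _ hV
      omega
    have h2 : (V - 1) * nu A = V * nu A - nu A := by rw [Nat.sub_mul, one_mul]
    have h3 : (V * nu A) % 2 = 0 := by
      rw [hnu, show V * (4 * A + 2) = 2 * (V * (2 * A + 1)) by ring]
      omega
    have hx : xx A τ = 2 * A + 2 * (τ + 1) := rfl
    have e := tok_act (V * nu A) (trk V s A P D' a b) (2 * τ + 1) (nu A - xx A τ) (2 * A) Q
      (by omega)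
    rw [show 2 * A + (1 + (2 * τ + 1)) = xx A τ by omega,
      show xx A τ + (1 + (nu A - xx A τ)) = nu A + 1 by omega] at e
    have ht : trk V s A P D' a b (V * nu A - 1 - (2 * τ + 1)) =
        List.replicate (1 + (V * nu A - 1) * s) true := by
      rw [trk, if_neg (by omega), if_neg (by omega), if_pos (by omega),
        show (V * nu A - (V * nu A - 1 - (2 * τ + 1))) / 2 - 1 = τ by omega, hp]
    rw [lt1, e, ht]
    congr 1
    omega

end PCP4
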