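import Pool.Agent.Helper85.PCP.Stmts

/-!
# Module TRN: the input lists of Mathlib's `TM2` machines are computable
-/

namespace PCP4

open Turing Turing.PartrecToTM2

theorem trn_bit0 : ∀ n : Num, n ≠ 0 → trNum n.bit0 = Γ'.bit0 :: trNum n
  | 0, h => absurd rfl h
  | Num.pos _, _ => rfl

theorem trn_bit1 : ∀ n : Num, trNum n.bit1 = Γ'.bit1 :: trNum n
  | 0 => rfl
  | Num.pos _ => rfl

theorem trn_nat (n : ℕ) (hn : n ≠ 0) :
    trNat n = (if n % 2 = 1 then Γ'.bit1 else Γ'.bit0) :: trNat (n / 2) := by
  rw [trNat, trNat, ← Num.ofNat'_eq, ← Num.ofNat'_eq]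
  rcases Nat.mod_two_eq_zero_or_one n with h | h
  · have e : n = Nat.bit false (n / 2) := by rw [Nat.bit_false_apply]; omega
    rw [if_neg (by omega), show Num.ofNat' n = Num.ofNat' (Nat.bit false (n / 2)) from by
      rw [← e], Num.ofNat'_bit]
    apply trn_bit0
    rw [Num.ofNat'_eq]
    intro h0
    have h1 : (((n / 2 : ℕ) : Num) : ℕ) = ((0 : Num) : ℕ) := congrArg (fun a : Num => (a : ℕ)) h0
    rw [Num.to_of_nat, Num.cast_zero] at h1
    omega
  · have e : n = Nat.bit true (n / 2) := by rw [Nat.bit_true_apply]; omega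
    rw [if_pos h, show Num.ofNat' n = Num.ofNat' (Nat.bit true (n / 2)) from by
      rw [← e], Num.ofNat'_bit]
    exact trn_bit1 _

theorem trn_primrec (e : Γ' → ℕ) : Primrec (fun n : ℕ => (trNat n).map e) := by
  have h1 : Primrec₂ (fun (_ : Unit) (l : List (List ℕ)) =>
      if l.length = 0 then some ([] : List ℕ) else
        (l[l.length / 2]?).map (fun t => (if l.length % 2 = 1 then e Γ'.bit1 else e Γ'.bit0) :: t)) := by
    have hl : Primrec (fun p : Unit × List (List ℕ) => p.2.length) :=
      Primrec.list_length.comp Primrec.snd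
    refine Primrec.ite (PrimrecRel.comp Primrec.eq hl (Primrec.const 0)) (Primrec.const _) ?_
    refine Primrec.option_map (Primrec.list_getElem?.comp Primrec.snd
      (Primrec.nat_div.comp hl (Primrec.const 2))) ?_
    refine Primrec.list_cons.comp (Primrec.ite ?_ (Primrec.const _) (Primrec.const _)) Primrec.snd
    exact PrimrecRel.comp Primrec.eq (Primrec.nat_mod.comp (hl.comp Primrec.fst)
      (Primrec.const 2)) (Primrec.const 1)
  have h2 : Primrec₂ (fun (_ : Unit) (n : ℕ) => (trNat n).map e) := by
    refine Primrec.nat_strong_rec _ h1 ?_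
    intro _ n
    rw [List.length_map, List.length_range]
    by_cases hn : n = 0
    · rw [if_pos hn, hn, trNat_zero]
      rfl
    · rw [if_neg hn, List.getElem?_map, List.getElem?_range (by omega), trn_nat n hn]
      simp only [Option.map_some, List.map_cons]
      split_ifs <;> rfl
  exact h2.comp (Primrec.const ()) Primrec.id

theorem st_TRN : ST_TRN := by
  intro e
  have h : (fun n : ℕ => (trList [n]).map e) = fun n => (trNat n).map e ++ [e Γ'.cons] := by
    funext n
    rw [trList, trList, List.map_append]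
    rfl
  rw [h]
  exact (Primrec.list_append.comp (trn_primrec e) (Primrec.const _)).to_comp

end PCP4
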